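import Pool.Agent.L7h95.CD.Stm

set_option autoImplicit false

/-! Project CD, parts NB and CNT. -/

namespace Pool.Agent.L7h29.CD

open Finset Function Pool.Agent.L7h95.CD

theorem s_NB : S_NB := by
  intro ι _ _ x y
  have key : ∀ a b : ZMod 2, a ≠ b → b = a + 1 := by decide
  have key2 : ∀ a : ZMod 2, a ≠ a + 1 := by decide
  unfold hammingDist
  rw [card_eq_one]
  constructor
  · rintro ⟨c, hc⟩
    refine ⟨c, ?_⟩
    funext i
    by_cases hi : i = c
    · subst hi
      have h : i ∈ univ.filter (fun i => x i ≠ y i) := by rw [hc]; exact mem_singleton_self i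
      rw [mem_filter] at h
      rw [Pi.add_apply, Pi.single_eq_same]
      exact key _ _ h.2
    · have h : i ∉ univ.filter (fun i => x i ≠ y i) := by
        rw [hc, mem_singleton]; exact hi
      rw [mem_filter] at h
      rw [Pi.add_apply, Pi.single_eq_of_ne hi, add_zero]
      by_contra hne
      exact h ⟨mem_univ _, fun h' => hne h'.symm⟩
  · rintro ⟨c, rfl⟩
    refine ⟨c, ?_⟩
    ext i
    rw [mem_filter, mem_singleton, Pi.add_apply]
    by_cases hi : i = c
    · subst hi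
      rw [Pi.single_eq_same]
      exact ⟨fun _ => rfl, fun _ => ⟨mem_univ _, key2 _⟩⟩
    · rw [Pi.single_eq_of_ne hi, add_zero]
      exact ⟨fun h => absurd rfl h.2, fun h => absurd h hi⟩

theorem s_CNT (hNB : S_NB) : S_CNT := by
  classical
  intro n k a f hf i W hW
  obtain ⟨hinj, hadj⟩ := hf
  obtain ⟨A, hAc, hA⟩ : ∃ A : Finset (Fin n → ZMod 2), A.card = a i ∧
      ∀ y ∈ A, ∃ l : Fin (a i), y = f (.inr ⟨i, l⟩) := by
    refine ⟨(univ : Finset (Fin (a i))).image (fun l => f (Sum.inr ⟨i, l⟩)), ?_, ?_⟩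
    · rw [card_image_of_injective, card_univ, Fintype.card_fin]
      intro l l' h
      have := hinj h
      simpa using this
    · intro y hy
      rw [mem_image] at hy
      obtain ⟨l, _, rfl⟩ := hy
      exact ⟨l, rfl⟩
  obtain ⟨B, hBc, hB⟩ : ∃ B : Finset (Fin n → ZMod 2), B.card = (if i.1 = 0 then 0 else 1) ∧
      ∀ y ∈ B, ∃ j : Fin k, j.1 + 1 = i.1 ∧ y = f (.inl j) := by
    by_cases h : i.1 = 0
    · exact ⟨∅, by simp [h], by simp⟩
    · refine ⟨{f (.inl ⟨i.1 - 1, by omega⟩)}, by rw [card_singleton, if_neg h], ?_⟩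
      intro y hy
      rw [mem_singleton] at hy
      exact ⟨⟨i.1 - 1, by omega⟩, by show i.1 - 1 + 1 = i.1; omega, hy⟩
  obtain ⟨C, hCc, hC⟩ : ∃ C : Finset (Fin n → ZMod 2), C.card = (if i.1 + 1 = k then 0 else 1) ∧
      ∀ y ∈ C, ∃ j : Fin k, i.1 + 1 = j.1 ∧ y = f (.inl j) := by
    by_cases h : i.1 + 1 = k
    · exact ⟨∅, by simp [h], by simp⟩
    · refine ⟨{f (.inl ⟨i.1 + 1, by omega⟩)}, by rw [card_singleton, if_neg h], ?_⟩
      intro y hy
      rw [mem_singleton] at hy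
      exact ⟨⟨i.1 + 1, by omega⟩, rfl, hy⟩
  have hAadj : ∀ y ∈ A, ∃ u, (Cat k a).Adj (.inl i) u ∧ y = f u := by
    intro y hy
    obtain ⟨l, rfl⟩ := hA y hy
    have h : (Cat k a).Adj (.inl i) (.inr ⟨i, l⟩) := (rfl : i = i)
    exact ⟨_, h, rfl⟩
  have hBadj : ∀ y ∈ B, ∃ u, (Cat k a).Adj (.inl i) u ∧ y = f u := by
    intro y hy
    obtain ⟨j, hj, rfl⟩ := hB y hy
    have h : (Cat k a).Adj (.inl i) (.inl j) := (Or.inr hj : i.1 + 1 = j.1 ∨ j.1 + 1 = i.1)
    exact ⟨_, h, rfl⟩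
  have hCadj : ∀ y ∈ C, ∃ u, (Cat k a).Adj (.inl i) u ∧ y = f u := by
    intro y hy
    obtain ⟨j, hj, rfl⟩ := hC y hy
    have h : (Cat k a).Adj (.inl i) (.inl j) := (Or.inl hj : i.1 + 1 = j.1 ∨ j.1 + 1 = i.1)
    exact ⟨_, h, rfl⟩
  have hAB : Disjoint A B := Finset.disjoint_left.2 fun y hy hy' => by
    obtain ⟨l, rfl⟩ := hA y hy
    obtain ⟨j, _, h⟩ := hB _ hy'
    exact absurd (hinj h) (by simp)
  have hAC : Disjoint A C := Finset.disjoint_left.2 fun y hy hy' => by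
    obtain ⟨l, rfl⟩ := hA y hy
    obtain ⟨j, _, h⟩ := hC _ hy'
    exact absurd (hinj h) (by simp)
  have hBC : Disjoint B C := Finset.disjoint_left.2 fun y hy hy' => by
    obtain ⟨j, hj, rfl⟩ := hB y hy
    obtain ⟨j', hj', h⟩ := hC _ hy'
    have h1 := hinj h
    rw [Sum.inl.injEq] at h1
    subst h1
    omega
  have hABC : ∀ y ∈ (A ∪ B) ∪ C, ∃ u, (Cat k a).Adj (.inl i) u ∧ y = f u := by
    intro y hy
    rw [mem_union, mem_union] at hy
    rcases hy with (hy | hy) | hy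
    · exact hAadj y hy
    · exact hBadj y hy
    · exact hCadj y hy
  have hTW : Disjoint ((A ∪ B) ∪ C) W := Finset.disjoint_left.2 fun y hy hy' => by
    obtain ⟨u, hu, rfl⟩ := hABC y hy
    exact (hW _ hy').2 u hu rfl
  have hsub : ((A ∪ B) ∪ C) ∪ W ⊆ univ.image (fun c : Fin n => f (.inl i) + Pi.single c 1) := by
    intro y hy
    have hd : hammingDist (f (.inl i)) y = 1 := by
      rw [mem_union] at hy
      rcases hy with hy | hy
      · obtain ⟨u, hu, rfl⟩ := hABC y hy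
        exact hadj _ _ hu
      · exact (hW y hy).1
    obtain ⟨c, rfl⟩ := (hNB (Fin n) _ _).1 hd
    exact mem_image_of_mem _ (mem_univ c)
  have h1 := (card_le_card hsub).trans card_image_le
  rw [card_union_of_disjoint hTW,
    card_union_of_disjoint (Finset.disjoint_union_left.2 ⟨hAC, hBC⟩),
    card_union_of_disjoint hAB, card_univ, Fintype.card_fin, hAc, hBc, hCc] at h1
  exact h1

end Pool.Agent.L7h29.CD
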